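import Pool.Agent.MP_3ee8cb_gt.D3LM.Area

/-! Locally Lipschitz maps: null sets, critical values, and the signed area formula. -/

namespace Pool.Agent.MP_3ee8cb_gt.D3LM

open Set MeasureTheory Filter Topology Function Module
open scoped ENNReal NNReal

variable {W : Type} [NormedAddCommGroup W] [NormedSpace ℝ W] [FiniteDimensional ℝ W]
  {F : Type} [NormedAddCommGroup F] [NormedSpace ℝ F]
  {f : W → W} {f' : W → W →L[ℝ] W} {s U : Set W}

omit [FiniteDimensional ℝ W] in
/-- The derivative is bounded on compact sets. -/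
theorem bdd_fderiv {g : W → F} (hU : IsOpen U) (h : LocallyLipschitzOn U g) {K : Set W}
    (hK : IsCompact K) (KU : K ⊆ U) : ∃ M, ∀ a ∈ K, ‖fderiv ℝ g a‖ ≤ M := by
  refine hK.induction_on (p := fun K => ∃ M, ∀ a ∈ K, ‖fderiv ℝ g a‖ ≤ M) ⟨0, fun _ h => h.elim⟩
    (fun _ _ e ⟨M, hM⟩ => ⟨M, fun a ha => hM a (e ha)⟩) (fun _ _ ⟨M, hM⟩ ⟨N, hN⟩ =>
      ⟨max M N, fun a ha => ha.elim (fun k => le_max_of_le_left (hM a k))
        fun k => le_max_of_le_right (hN a k)⟩) fun x hx => ?_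
  obtain ⟨L, t, ht, hL⟩ := h (KU hx)
  rw [hU.nhdsWithin_eq (KU hx)] at ht
  exact ⟨interior t, nhdsWithin_le_nhds (interior_mem_nhds.2 ht), L, fun a ha =>
    norm_fderiv_le_of_lipschitzOn ℝ (mem_interior_iff_mem_nhds.1 ha) hL⟩

variable [MeasurableSpace W] [BorelSpace W] (μ : Measure W) [μ.IsAddHaarMeasure]

omit [NormedAddCommGroup W] [NormedSpace ℝ W] [FiniteDimensional ℝ W] [BorelSpace W]
  [μ.IsAddHaarMeasure] in
/-- A set that is locally null is null. -/
theorem loc_null {X : Type} [TopologicalSpace X] [SecondCountableTopology X] {S : Set X}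
    (g : X → W) (h : ∀ x ∈ S, ∃ t ∈ 𝓝[S] x, μ (g '' (t ∩ S)) = 0) : μ (g '' S) = 0 := by
  choose! t ht using h
  obtain ⟨c, c1, c2, c3⟩ := TopologicalSpace.countable_cover_nhdsWithin (f := t) (s := S)
    fun x hx => (ht x hx).1
  refine measure_mono_null ?_ ((measure_biUnion_null_iff c2).2 fun x hx => (ht x (c1 hx)).2)
  rintro _ ⟨x, hx, rfl⟩
  obtain ⟨y, hy, k⟩ := mem_iUnion₂.1 (c3 hx)
  exact mem_iUnion₂.2 ⟨y, hy, x, ⟨k, hx⟩, rfl⟩

/-- The image of a null set under a locally Lipschitz map is null. -/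
theorem img_null (h : LocallyLipschitzOn s f) (h0 : μ s = 0) : μ (f '' s) = 0 := by
  have : ProperSpace W := FiniteDimensional.proper_real W
  refine loc_null μ f fun x hx => ?_
  obtain ⟨K, t, ht, hK⟩ := h hx
  refine ⟨t, ht, Measure.absolutelyContinuous_isAddHaarMeasure μ μH[finrank ℝ W] ?_⟩
  have := (hK.mono (inter_subset_left (t := s))).hausdorffMeasure_image_le
    (d := finrank ℝ W) (Nat.cast_nonneg _)
  rwa [Measure.absolutelyContinuous_isAddHaarMeasure μH[finrank ℝ W] μ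
    (measure_mono_null inter_subset_right h0), mul_zero, nonpos_iff_eq_zero] at this

/-- The theorem of Rademacher on an open set. -/
theorem ae_diff [FiniteDimensional ℝ F] {g : W → F} (hU : IsOpen U) (h : LocallyLipschitzOn U g) :
    ∀ᵐ a ∂μ, a ∈ U → DifferentiableAt ℝ g a := by
  have : ProperSpace W := FiniteDimensional.proper_real W
  have := loc_null μ (S := {a ∈ U | ¬DifferentiableAt ℝ g a}) id fun x hx => by
    obtain ⟨K, t, ht, hK⟩ := h hx.1
    rw [hU.nhdsWithin_eq hx.1] at ht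
    refine ⟨interior t, nhdsWithin_le_nhds (interior_mem_nhds.2 ht), ?_⟩
    rw [image_id, measure_eq_zero_iff_ae_notMem]
    filter_upwards [hK.ae_differentiableWithinAt_of_mem (μ := μ)] with a ha k
    exact k.2.2 ((ha (interior_subset k.1)).differentiableAt (mem_interior_iff_mem_nhds.1 k.1))
  rw [image_id, measure_eq_zero_iff_ae_notMem] at this
  exact this.mono fun a ha k => not_not.1 fun e => ha ⟨k, e⟩

/-- Critical values of a locally Lipschitz map are null. -/
theorem sard (hU : IsOpen U) (h : LocallyLipschitzOn U f) :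
    μ (f '' {a ∈ U | ¬DifferentiableAt ℝ f a ∨ (fderiv ℝ f a).det = 0}) = 0 := by
  have h1 := img_null μ (s := {a ∈ U | ¬DifferentiableAt ℝ f a}) (h.mono fun _ k => k.1)
    (measure_eq_zero_iff_ae_notMem.2 ((ae_diff μ hU h).mono fun a ha k => k.2 (ha k.1)))
  have h2 := addHaar_image_eq_zero_of_det_fderivWithin_eq_zero μ (f := f) (f' := fderiv ℝ f)
    (s := {a | DifferentiableAt ℝ f a ∧ (fderiv ℝ f a).det = 0})
    (fun a ha => ha.1.hasFDerivAt.hasFDerivWithinAt) fun a ha => ha.2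
  refine measure_mono_null ?_ (measure_union_null h1 h2)
  rintro _ ⟨a, ha, rfl⟩
  by_cases k : DifferentiableAt ℝ f a
  · exact Or.inr ⟨a, ⟨k, ha.2.resolve_left (not_not.2 k)⟩, rfl⟩
  · exact Or.inl ⟨a, ⟨ha.1, k⟩, rfl⟩

/-- The area formula with signs. -/
theorem sgn_area1 (ε : ℝ) (hs : MeasurableSet s) (h : ∀ x ∈ s, HasFDerivWithinAt f (f' x) s x)
    (md : Measurable fun a => (f' a).det) (hi : IntegrableOn (fun a => (f' a).det) s μ)
    (hc : ∀ᵐ y ∂μ, {a ∈ s | f a = y ∧ 0 < ε * (f' a).det}.encard ≤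
      {a ∈ s | f a = y ∧ ε * (f' a).det < 0}.encard) : ∫ a in s, ε * (f' a).det ∂μ ≤ 0 := by
  rcases eq_or_ne ε 0 with rfl | e0
  · simp
  have key : ∀ δ : ℝ, |δ| = |ε| → ∃ N : W → ℝ≥0∞,
      (∀ y, N y = ({a ∈ s | f a = y ∧ 0 < δ * (f' a).det}.encard : ℝ≥0∞)) ∧
      ∫⁻ a in s, ENNReal.ofReal (δ * (f' a).det) ∂μ = ∫⁻ y, N y * ENNReal.ofReal |ε| ∂μ := by
    intro δ hδ
    have ms : MeasurableSet {a | 0 < δ * (f' a).det} :=
      measurableSet_lt measurable_const (md.const_mul δ)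
    obtain ⟨N, -, n2, n3⟩ := saf1 μ (f := f) (f' := f') (ms.inter hs)
      (fun x hx => (h x hx.2).mono inter_subset_right) fun x hx e => by simpa [e] using hx.1
    refine ⟨N, fun y => ?_, ?_⟩
    · rw [n2]
      congr 2
      ext a
      simp only [mem_inter_iff, mem_ofPred_eq, mem_preimage, mem_singleton_iff]
      tauto
    · rw [← n3 _ measurable_const, ← Measure.restrict_restrict ms, ← lintegral_indicator ms]
      refine lintegral_congr fun a => ?_
      by_cases e : 0 < δ * (f' a).det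
      · rw [indicator_of_mem (show a ∈ {a | 0 < δ * (f' a).det} from e),
          ← abs_of_pos e, abs_mul, hδ, mul_comm, ENNReal.ofReal_mul (abs_nonneg _)]
      · rw [indicator_of_notMem (show a ∉ {a | 0 < δ * (f' a).det} from e),
          ENNReal.ofReal_of_nonpos (not_lt.1 e)]
  obtain ⟨N, n1, n2⟩ := key ε rfl
  obtain ⟨M, m1, m2⟩ := key (-ε) (abs_neg ε)
  have hf : IntegrableOn (fun a => ε * (f' a).det) s μ := hi.const_mul ε
  rw [integral_eq_lintegral_pos_part_sub_lintegral_neg_part hf, sub_nonpos]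
  simp only [neg_mul] at m1 m2
  refine ENNReal.toReal_mono ?_ ?_
  · exact (lt_of_le_of_lt (lintegral_mono fun a => Real.ofReal_le_enorm _) hf.neg.2).ne
  · rw [n2, m2]
    refine lintegral_mono_ae (hc.mono fun y hy => mul_le_mul_left ?_ _)
    rw [n1, m1]
    simp only [neg_pos]
    exact ENat.toENNReal_le.2 hy

/-- The derivative within a set is unique almost everywhere. -/
theorem uniq_ae {g : W → F} {A B : W → W →L[ℝ] F} (h1 : ∀ x ∈ s, HasFDerivWithinAt g (A x) s x)
    (h2 : ∀ x ∈ s, HasFDerivWithinAt g (B x) s x) : ∀ᵐ x ∂μ, x ∈ s → A x = B x := by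
  have := lev μ (s := {x ∈ s | A x ≠ B x}) (H := fun _ => 0) (fun _ _ => rfl) fun x hx => by
    obtain ⟨v, hv⟩ : ∃ v, (A x - B x) v ≠ 0 := by
      by_contra hc
      exact hx.2 (sub_eq_zero.1 (ContinuousLinearMap.ext fun e => not_not.1 fun h => hc ⟨e, h⟩))
    obtain ⟨l, -, hl⟩ := exists_dual_vector ℝ _ (norm_ne_zero_iff.2 hv)
    refine ⟨l.comp (A x - B x), fun e => hv (norm_eq_zero.1 ?_), ?_⟩
    · exact hl.symm.trans (congrArg (fun L : W →L[ℝ] ℝ => L v) e)
    · exact ((l.hasFDerivAt.comp_hasFDerivWithinAt x ((h1 x hx.1).sub (h2 x hx.1))).mono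
        fun _ k => k.1).congr (fun _ _ => by simp) (by simp)
  exact (measure_eq_zero_iff_ae_notMem.1 this).mono fun a ha k => not_not.1 fun e => ha ⟨k, e⟩

end Pool.Agent.MP_3ee8cb_gt.D3LM
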