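import Pool.Agent.MP_3ee8cb_gt.D3LM.Lip
import Pool.Agent.MP_3ee8cb_gt.D3NP.REVT

/-! Generic lines and levels for locally Lipschitz data. -/

namespace Pool.Agent.MP_3ee8cb_gt.D3LM

open Set MeasureTheory Filter Topology D3 D3NP
open scoped RealInnerProductSpace

section

variable {X E F : Type} [PseudoEMetricSpace X] [NormedAddCommGroup E] [NormedSpace ℝ E]
  [NormedAddCommGroup F] [NormedSpace ℝ F] {U : Set X}

theorem lip_comp {f : X → E} {g : E → F} (hf : LocallyLipschitzOn U f)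
    (hg : ∀ a ∈ U, ContDiffAt ℝ 1 g (f a)) : LocallyLipschitzOn U fun a => g (f a) := by
  intro a ha
  obtain ⟨K, t, ht, hK⟩ := hf ha
  obtain ⟨L, u, hu, hL⟩ := (hg a ha).exists_lipschitzOnWith
  exact ⟨L * K, t ∩ f ⁻¹' u, inter_mem ht (hf.continuousOn a ha hu),
    hL.comp (hK.mono inter_subset_left) fun _ h => h.2⟩

omit [NormedSpace ℝ E] [NormedSpace ℝ F] in
theorem lip_prod {f : X → E} {g : X → F} (hf : LocallyLipschitzOn U f)
    (hg : LocallyLipschitzOn U g) : LocallyLipschitzOn U fun a => (f a, g a) := by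
  intro a ha
  obtain ⟨K, t, ht, hK⟩ := hf ha
  obtain ⟨L, u, hu, hL⟩ := hg ha
  exact ⟨_, t ∩ u, inter_mem ht hu,
    (hK.mono inter_subset_left).prodMk (hL.mono inter_subset_right)⟩

end

variable {c ϑ : V → V} {u α : V → ℝ} {U S N Z : Set V} {ξ : V} {lam : V →L[ℝ] ℝ}

theorem lip_us (lc : LocallyLipschitzOn U c) (lϑ : LocallyLipschitzOn U ϑ) (hα : ContDiff ℝ 1 α)
    (ξ : V) : LocallyLipschitzOn U (us c ϑ α ξ) :=
  lip_comp (g := fun p : V × V => α p.1 * ⟪p.2, ξ⟫) (lip_prod lc lϑ) fun _ _ =>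
    ((hα.comp contDiff_fst).mul (contDiff_snd.inner ℝ contDiff_const)).contDiffAt

theorem lip_em (lc : LocallyLipschitzOn U c) (lu : LocallyLipschitzOn U u) (ξ : V)
    (lam : V →L[ℝ] ℝ) : LocallyLipschitzOn U (Em c u ξ lam) := by
  have h : ContDiff ℝ 1 fun p : V × ℝ => p.1 + (p.2 - lam p.1) • ξ := by fun_prop
  have := lip_comp (lip_prod lc lu) fun _ _ => h.contDiffAt
  exact this

theorem em_iff {a v : V} (hl : lam ξ = 1) :
    Em c u ξ lam a = v ↔ (∃ r : ℝ, c a = v + r • ξ) ∧ u a = lam v := by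
  unfold Em
  refine ⟨?_, ?_⟩
  · rintro rfl
    refine ⟨⟨-(u a - lam (c a)), by module⟩, ?_⟩
    rw [map_add, map_smul, hl, smul_eq_mul]
    ring
  · rintro ⟨⟨r, e⟩, h⟩
    rw [h, e, map_add, map_smul, hl, smul_eq_mul]
    module

/-- Almost every value has only regular preimages outside a null set. -/
theorem ae_reg (hU : IsOpen U) (lc : LocallyLipschitzOn U c) (hN : volume N = 0) :
    ∀ᵐ z, ∀ a ∈ U, c a = z → a ∉ N ∧ DifferentiableAt ℝ c a ∧ jc c a ≠ 0 := by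
  filter_upwards [measure_eq_zero_iff_ae_notMem.1 (sard volume hU lc),
    measure_eq_zero_iff_ae_notMem.1 (img_null volume (lc.mono (inter_subset_left (t := N)))
      (measure_mono_null inter_subset_right hN))] with z z1 z2 a ha e
  exact ⟨fun k => z2 ⟨a, ⟨ha, k⟩, e⟩, not_not.1 fun k => z1 ⟨a, ⟨ha, Or.inl k⟩, e⟩,
    fun k => z1 ⟨a, ⟨ha, Or.inr k⟩, e⟩⟩

/-- Almost every value has no tie with different gradients. -/
theorem ae_tie (hU : IsOpen U) (lc : LocallyLipschitzOn U c) (lu : LocallyLipschitzOn U u) :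
    ∀ᵐ z, ∀ a ∈ U, ∀ b ∈ U, c a = z → c b = z → u a = u b → ∀ v w,
      fderiv ℝ c a v = fderiv ℝ c b w → fderiv ℝ u a v = fderiv ℝ u b w := by
  have n := nul1 volume (f := c) (f' := fderiv ℝ c) (u := u) (u' := fderiv ℝ u)
    (s := {a | DifferentiableAt ℝ c a ∧ jc c a ≠ 0 ∧ DifferentiableAt ℝ u a})
    (fun a ha => ha.1.hasFDerivAt.hasFDerivWithinAt) (fun a ha => ha.2.1)
    fun a ha => ha.2.2.hasFDerivAt.hasFDerivWithinAt
  filter_upwards [measure_eq_zero_iff_ae_notMem.1 n,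
    ae_reg hU lc (ae_iff.1 (ae_diff volume hU lu))] with z z1 z2 a ha b hb e e' k v w h
  obtain ⟨a1, a2, a3⟩ := z2 a ha e
  obtain ⟨b1, b2, b3⟩ := z2 b hb e'
  exact not_not.1 fun j => z1 ⟨a, ⟨a2, a3, not_not.1 a1 ha⟩, b, ⟨b2, b3, not_not.1 b1 hb⟩, e, e',
    k, v, w, h, j⟩

/-- Almost every line and level is generic. -/
theorem ae_evt (hU : IsOpen U) (lc : LocallyLipschitzOn U c) (lu : LocallyLipschitzOn U u)
    (hl : lam ξ = 1) (hN : volume N = 0) (hZ : volume Z = 0) (h0 : ∀ᵐ a, a ∈ S → jc c a ≠ 0)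
    (SU : S ⊆ U) : ∀ᵐ v, lam v ≠ 0 ∧ (∀ᵐ r : ℝ, v + r • ξ ∉ Z) ∧
      (∀ a ∈ S, Em c u ξ lam a = v → a ∉ N ∧ DifferentiableAt ℝ c a ∧ DifferentiableAt ℝ u a ∧
        jc c a ≠ 0 ∧ jc (Em c u ξ lam) a ≠ 0 ∧ c a ∉ Z) ∧
      ∀ a ∈ S, ∀ b ∈ S, Em c u ξ lam a = v → Em c u ξ lam b = v → c a = c b → ∀ η η',
        fderiv ℝ c a η = fderiv ℝ c b η' → fderiv ℝ u a η = fderiv ℝ u b η' := by
  have n1 : volume {v : V | lam v = 0} = 0 :=
    Measure.addHaar_submodule volume (LinearMap.ker (lam : V →ₗ[ℝ] ℝ)) fun e => by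
      have : ξ ∈ LinearMap.ker (lam : V →ₗ[ℝ] ℝ) := e ▸ Submodule.mem_top
      exact one_ne_zero (hl.symm.trans this)
  have n2 := nul_pre1 volume (f := c) (f' := fderiv ℝ c)
    (s := {a | DifferentiableAt ℝ c a ∧ jc c a ≠ 0})
    (fun a ha => ha.1.hasFDerivAt.hasFDerivWithinAt) (fun a ha => ha.2)
    (measure_union_null hZ (ae_iff.1 (ae_tie hU lc lu)))
  have n3 : ∀ᵐ a, a ∈ S → a ∉ N ∧ DifferentiableAt ℝ c a ∧ DifferentiableAt ℝ u a ∧ jc c a ≠ 0 ∧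
      c a ∉ Z ∧ ∀ b ∈ U, c b = c a → u a = u b → ∀ v w,
        fderiv ℝ c a v = fderiv ℝ c b w → fderiv ℝ u a v = fderiv ℝ u b w := by
    filter_upwards [measure_eq_zero_iff_ae_notMem.1 hN, ae_diff volume hU lc, ae_diff volume hU lu,
      h0, measure_eq_zero_iff_ae_notMem.1 n2] with a a1 a2 a3 a4 a5 ha
    have k := not_or.1 fun e => a5 ⟨⟨a2 (SU ha), a4 ha⟩, e⟩
    exact ⟨a1, a2 (SU ha), a3 (SU ha), a4 ha, k.1, fun b hb e =>
      not_not.1 k.2 a (SU ha) b hb rfl e⟩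
  filter_upwards [measure_eq_zero_iff_ae_notMem.1 n1, nul_line hZ ξ,
    ae_reg hU (lip_em lc lu ξ lam) (ae_iff.1 n3)] with v v1 v2 v3
  refine ⟨v1, v2, fun a ha e => ?_, fun a ha b hb e e' k => ?_⟩
  · obtain ⟨a1, -, a3⟩ := v3 a (SU ha) e
    obtain ⟨b1, b2, b3, b4, b5, -⟩ := not_not.1 a1 ha
    exact ⟨b1, b2, b3, b4, a3, b5⟩
  · exact (not_not.1 (v3 a (SU ha) e).1 ha).2.2.2.2.2 b (SU hb) k.symm
      (((em_iff hl).1 e).2.trans ((em_iff hl).1 e').2.symm)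

end Pool.Agent.MP_3ee8cb_gt.D3LM
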