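import Mathlib

/-! The area formula with multiplicity for maps that are differentiable within a set. -/

namespace Pool.Agent.MP_3ee8cb_gt.D3LM

open Set MeasureTheory Filter Topology Function
open scoped ENNReal NNReal

variable {W : Type} [NormedAddCommGroup W] [NormedSpace ℝ W] [FiniteDimensional ℝ W]
  {f : W → W} {f' : W → W →L[ℝ] W} {s : Set W}

/-- A countable cover by pieces on which the map is an embedding. -/
theorem cover (h : ∀ x ∈ s, HasFDerivWithinAt f (f' x) s x) (hd : ∀ x ∈ s, (f' x).det ≠ 0) :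
    ∃ t : ℕ → Set W, (∀ n, IsClosed (t n)) ∧ s ⊆ ⋃ n, t n ∧
      ∀ n, ∃ K, AntilipschitzWith K ((s ∩ t n).domRestrict f) := by
  classical
  have : ProperSpace W := FiniteDimensional.proper_real W
  rcases s.eq_empty_or_nonempty with rfl | hs
  · exact ⟨fun _ => ∅, fun _ => isClosed_empty, empty_subset _,
      fun _ => ⟨0, fun x => x.2.1.elim⟩⟩
  obtain ⟨t, A, t1, t2, t3, t4⟩ := exists_closed_cover_approximatesLinearOn_of_hasFDerivWithinAt
    f s f' h (fun A => if e : A.det ≠ 0 then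
      (‖((A.toContinuousLinearEquivOfDetNeZero e).symm : W →L[ℝ] W)‖₊ + 1)⁻¹ else 1)
    fun A => by split_ifs <;> positivity
  refine ⟨t, t1, t2, fun n => ?_⟩
  obtain ⟨y, hy, e⟩ := t4 hs n
  have e' : (A n).det ≠ 0 := e ▸ hd y hy
  have := t3 n
  rw [dif_pos e'] at this
  exact ⟨_, ApproximatesLinearOn.antilipschitz (f' := (A n).toContinuousLinearEquivOfDetNeZero e')
    this ((ContinuousLinearEquiv.subsingleton_or_nnnorm_symm_pos _).imp id fun p =>
      inv_strictAnti₀ p (lt_add_one _))⟩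

variable [MeasurableSpace W] [BorelSpace W] (μ : Measure W) [μ.IsAddHaarMeasure]

theorem saf1 (hs : MeasurableSet s) (h : ∀ x ∈ s, HasFDerivWithinAt f (f' x) s x)
    (hd : ∀ x ∈ s, (f' x).det ≠ 0) :
    ∃ N : W → ℝ≥0∞, Measurable N ∧ (∀ y, N y = ((s ∩ f ⁻¹' {y}).encard : ℝ≥0∞)) ∧
      ∀ g : W → ℝ≥0∞, Measurable g →
        ∫⁻ x in s, ENNReal.ofReal |(f' x).det| * g (f x) ∂μ = ∫⁻ y, N y * g y ∂μ := by
  have : CompleteSpace W := FiniteDimensional.complete ℝ W
  have : ProperSpace W := FiniteDimensional.proper_real W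
  obtain ⟨u, huo, hus, hui⟩ := cover h hd
  set p : ℕ → Set W := fun i => s ∩ disjointed u i with hp
  have hpm : ∀ i, MeasurableSet (p i) := fun i =>
    hs.inter (MeasurableSet.disjointed (fun j => (huo j).measurableSet) i)
  have hpd : Pairwise (onFun Disjoint p) := fun i j hij =>
    (disjoint_disjointed u hij).mono inter_subset_right inter_subset_right
  have hpu : ⋃ i, p i = s := by
    rw [hp, ← inter_iUnion, iUnion_disjointed]
    exact inter_eq_left.2 hus
  have hpi : ∀ i, InjOn f (p i) := fun i =>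
    (injOn_iff_injective.2 (hui i).choose_spec.injective).mono
      (inter_subset_inter_right _ (disjointed_subset u i))
  have hpf : ∀ i, ∀ x ∈ p i, HasFDerivWithinAt f (f' x) (p i) x := fun i x hx =>
    (h x hx.1).mono inter_subset_left
  have him : ∀ i, MeasurableSet (f '' p i) := fun i =>
    measurable_image_of_fderivWithin (hpm i) (hpf i) (hpi i)
  have hind : ∀ i, Measurable ((f '' p i).indicator (1 : W → ℝ≥0∞)) := fun i =>
    measurable_one.indicator (him i)
  refine ⟨fun y => ∑' i, (f '' p i).indicator 1 y, Measurable.ennreal_tsum hind, fun y => ?_,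
    fun g hg => ?_⟩
  · have hsub : ∀ i, (p i ∩ f ⁻¹' {y}).Subsingleton := fun i a ha b hb =>
      hpi i ha.1 hb.1 (ha.2.trans hb.2.symm)
    have hmi : ∀ i, MeasurableSet (p i ∩ f ⁻¹' {y}) := fun i => (hsub i).measurableSet
    have he : s ∩ f ⁻¹' {y} = ⋃ i, p i ∩ f ⁻¹' {y} := by rw [← iUnion_inter, hpu]
    rw [he, ← Measure.count_apply (MeasurableSet.iUnion hmi), measure_iUnion
      (fun i j hij => (hpd hij).mono inter_subset_left inter_subset_left) hmi]
    refine tsum_congr fun i => ?_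
    by_cases hy : y ∈ f '' p i
    · obtain ⟨x, hx, rfl⟩ := hy
      rw [indicator_of_mem (mem_image_of_mem f hx), (hsub i).eq_singleton_of_mem (x := x) ⟨hx, rfl⟩,
        Measure.count_singleton]
      rfl
    · have : p i ∩ f ⁻¹' {y} = ∅ := eq_empty_of_forall_notMem fun x hx => hy ⟨x, hx.1, hx.2⟩
      rw [indicator_of_notMem hy, this, measure_empty]
  · conv_lhs => rw [← hpu]
    rw [lintegral_iUnion hpm hpd]
    simp_rw [← ENNReal.tsum_mul_right]
    rw [lintegral_tsum (f := fun i y => (f '' p i).indicator 1 y * g y)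
      fun i => ((hind i).mul hg).aemeasurable]
    refine tsum_congr fun i => ?_
    rw [← lintegral_image_eq_lintegral_abs_det_fderiv_mul μ (hpm i) (hpf i) (hpi i) g,
      ← lintegral_indicator (him i)]
    refine lintegral_congr fun y => ?_
    by_cases hy : y ∈ f '' p i
    · simp [indicator_of_mem hy]
    · simp [indicator_of_notMem hy]

/-- Almost every fibre is finite. -/
theorem fin_fib (hs : MeasurableSet s) (h : ∀ x ∈ s, HasFDerivWithinAt f (f' x) s x)
    (hd : ∀ x ∈ s, (f' x).det ≠ 0) (hi : IntegrableOn (fun x => (f' x).det) s μ) :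
    ∀ᵐ y ∂μ, (s ∩ f ⁻¹' {y}).Finite := by
  obtain ⟨N, n1, n2, n3⟩ := saf1 μ hs h hd
  have := n3 1 measurable_one
  simp only [Pi.one_apply, mul_one] at this
  have k : ∫⁻ y, N y ∂μ ≠ ∞ := by
    rw [← this]
    exact (lt_of_le_of_lt (lintegral_mono fun a => Real.ofReal_le_enorm _) hi.abs.2).ne
  filter_upwards [ae_lt_top n1 k] with y hy
  rw [n2] at hy
  exact encard_lt_top_iff.1 (by simpa using hy)

/-- A set on which a function vanishes with nonzero derivative is null. -/
theorem lev {H : W → ℝ} (h0 : ∀ x ∈ s, H x = 0)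
    (hd : ∀ x ∈ s, ∃ L : W →L[ℝ] ℝ, L ≠ 0 ∧ HasFDerivWithinAt H L s x) : μ s = 0 := by
  have h1 : ∀ x ∈ s, ∃ M : W →L[ℝ] W, HasFDerivWithinAt id M s x ∧ M.det = 0 := by
    intro x hx
    obtain ⟨L, h1, hL⟩ := hd x hx
    obtain ⟨e, he⟩ : ∃ e, L e ≠ 0 := by
      by_contra hc
      exact h1 (ContinuousLinearMap.ext fun e => not_not.1 fun h => hc ⟨e, h⟩)
    refine ⟨.id ℝ W - L.smulRight ((L e)⁻¹ • e), ?_, ?_⟩
    · exact ((hasFDerivWithinAt_id x s).sub (hL.smul_const ((L e)⁻¹ • e))).congr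
        (fun y hy => by simp [h0 y hy]) (by simp [h0 x hx])
    · refine LinearMap.det_eq_zero_iff_ker_ne_bot.2 ((Submodule.ne_bot_iff _).2 ⟨e, ?_, ?_⟩)
      · simp [smul_smul, mul_inv_cancel₀ he]
      · rintro rfl
        exact he (map_zero _)
  choose! M hM using h1
  have := addHaar_image_eq_zero_of_det_fderivWithin_eq_zero μ (fun x hx => (hM x hx).1)
    fun x hx => (hM x hx).2
  rwa [image_id] at this

omit [MeasurableSpace W] [BorelSpace W] in
/-- The inverse on a piece. -/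
theorem inv_der {K : ℝ≥0} (hK : AntilipschitzWith K (s.domRestrict f)) {a : W} (ha : a ∈ s)
    {A : W →L[ℝ] W} (h : HasFDerivWithinAt f A s a) (hd : A.det ≠ 0) :
    invFunOn f s (f a) = a ∧ MapsTo (invFunOn f s) (f '' s) s ∧ ∃ B : W →L[ℝ] W,
      HasFDerivWithinAt (invFunOn f s) B (f '' s) (f a) ∧ ∀ v, B (A v) = v := by
  have inj : InjOn f s := injOn_iff_injective.2 hK.injective
  have l := inj.leftInvOn_invFunOn
  have mp : MapsTo (invFunOn f s) (f '' s) s := fun y hy => invFunOn_mem hy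
  have lp : LipschitzOnWith K (invFunOn f s) (f '' s) := by
    rintro _ ⟨x, hx, rfl⟩ _ ⟨y, hy, rfl⟩
    rw [l hx, l hy]
    exact hK ⟨x, hx⟩ ⟨y, hy⟩
  let D := A.toContinuousLinearEquivOfDetNeZero hd
  refine ⟨l ha, mp, D.symm, HasFDerivWithinAt.of_local_left_inverse (f := f) (t := s)
    ((lp.continuousOn _ (mem_image_of_mem f ha)).tendsto_nhdsWithin mp) (by rwa [l ha])
    (mem_image_of_mem f ha) (eventually_nhdsWithin_of_forall fun y hy => invFunOn_eq hy),
    D.symm_apply_apply⟩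

/-- The points over which two regular branches have equal values and different gradients. -/
theorem nul1 {u : W → ℝ} {u' : W → W →L[ℝ] ℝ} (h : ∀ x ∈ s, HasFDerivWithinAt f (f' x) s x)
    (hd : ∀ x ∈ s, (f' x).det ≠ 0) (hu : ∀ x ∈ s, HasFDerivWithinAt u (u' x) s x) :
    μ {z | ∃ a ∈ s, ∃ b ∈ s, f a = z ∧ f b = z ∧ u a = u b ∧
      ∃ v w, f' a v = f' b w ∧ u' a v ≠ u' b w} = 0 := by
  obtain ⟨t, -, t2, t3⟩ := cover h hd
  choose K hK using t3
  have key : ∀ n m, μ {z | ∃ a ∈ s ∩ t n, ∃ b ∈ s ∩ t m, f a = z ∧ f b = z ∧ u a = u b ∧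
      ∃ v w, f' a v = f' b w ∧ u' a v ≠ u' b w} = 0 := fun n m => by
    refine lev μ (H := fun z => u (invFunOn f (s ∩ t n) z) - u (invFunOn f (s ∩ t m) z)) ?_ ?_
    · rintro _ ⟨a, ha, b, hb, rfl, e, k, -⟩
      rw [(injOn_iff_injective.2 (hK n).injective).leftInvOn_invFunOn ha, ← e,
        (injOn_iff_injective.2 (hK m).injective).leftInvOn_invFunOn hb, k, sub_self]
    · rintro _ ⟨a, ha, b, hb, rfl, e, -, v, w, k1, k2⟩
      obtain ⟨a1, a2, A, a3, a4⟩ := inv_der (hK n) ha ((h a ha.1).mono inter_subset_left) (hd a ha.1)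
      obtain ⟨b1, b2, B, b3, b4⟩ := inv_der (hK m) hb ((h b hb.1).mono inter_subset_left) (hd b hb.1)
      rw [e] at b1 b3
      refine ⟨(u' a).comp A - (u' b).comp B, fun h0 => k2 ?_, ?_⟩
      · have := congrArg (fun L : W →L[ℝ] ℝ => L (f' a v)) h0
        simp only [zero_apply, sub_apply, ContinuousLinearMap.comp_apply, a4] at this
        rw [k1, b4] at this
        exact sub_eq_zero.1 this
      · refine HasFDerivWithinAt.sub
          ((HasFDerivWithinAt.comp (g := u) (t := s) _ (by rw [a1]; exact hu a ha.1) a3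
            fun y hy => (a2 hy).1).mono ?_)
          ((HasFDerivWithinAt.comp (g := u) (t := s) _ (by rw [b1]; exact hu b hb.1) b3
            fun y hy => (b2 hy).1).mono ?_)
        · rintro _ ⟨x, hx, -, -, rfl, -⟩
          exact mem_image_of_mem f hx
        · rintro _ ⟨-, -, x, hx, -, rfl, -⟩
          exact mem_image_of_mem f hx
  refine measure_mono_null ?_ (measure_iUnion_null fun n => measure_iUnion_null fun m => key n m)
  rintro _ ⟨a, ha, b, hb, k⟩
  obtain ⟨n, hn⟩ := mem_iUnion.1 (t2 ha)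
  obtain ⟨m, hm⟩ := mem_iUnion.1 (t2 hb)
  exact mem_iUnion₂.2 ⟨n, m, a, ⟨ha, hn⟩, b, ⟨hb, hm⟩, k⟩

/-- The regular part of the preimage of a null set is null. -/
theorem nul_pre1 {Z : Set W} (h : ∀ x ∈ s, HasFDerivWithinAt f (f' x) s x)
    (hd : ∀ x ∈ s, (f' x).det ≠ 0) (hZ : μ Z = 0) : μ (s ∩ f ⁻¹' Z) = 0 := by
  obtain ⟨t, -, t2, t3⟩ := cover h hd
  choose K hK using t3
  have key : ∀ n, μ (invFunOn f (s ∩ t n) '' (f '' (s ∩ t n) ∩ Z)) = 0 := fun n => by
    refine addHaar_image_eq_zero_of_differentiableOn_of_addHaar_eq_zero μ ?_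
      (measure_mono_null inter_subset_right hZ)
    rintro _ ⟨⟨a, ha, rfl⟩, -⟩
    obtain ⟨-, -, A, a3, -⟩ := inv_der (hK n) ha ((h a ha.1).mono inter_subset_left) (hd a ha.1)
    exact a3.differentiableWithinAt.mono inter_subset_left
  refine measure_mono_null (fun a ha => ?_) (measure_iUnion_null key)
  obtain ⟨n, hn⟩ := mem_iUnion.1 (t2 ha.1)
  exact mem_iUnion.2 ⟨n, f a, ⟨mem_image_of_mem f ⟨ha.1, hn⟩, ha.2⟩,
    (injOn_iff_injective.2 (hK n).injective).leftInvOn_invFunOn ⟨ha.1, hn⟩⟩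

end Pool.Agent.MP_3ee8cb_gt.D3LM
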